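import Pool.Agent.Helper30.Full.GoalsG
import Pool.Agent.Helper31.ProC.Quo

/-! Packet QF (MP_ac806c_lc): quotients by closed normal subgroups. -/

set_option autoImplicit false

namespace Pool.Agent.Helper22.Full

open Pool.Agent.Helper85.ProP Pool.Agent.Helper30.ProP Pool.Agent.Helper85.ProC
open Pool.Agent.Helper30.Full

universe u

theorem fgg_quotient {G : Type u} [Group G] [TopologicalSpace G] [IsTopologicalGroup G]
    (V : Subgroup G) [V.Normal] (h : FGG G) : FGG (G ⧸ V) := by
  classical
  obtain ⟨S, hS⟩ := h
  refine ⟨S.image (QuotientGroup.mk' V), ?_⟩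
  set H := (Subgroup.closure ((S.image (QuotientGroup.mk' V) : Finset (G ⧸ V)) :
    Set (G ⧸ V))).topologicalClosure with hH
  have hcl : IsClosed (H : Set (G ⧸ V)) := Subgroup.isClosed_topologicalClosure _
  have hcomap : IsClosed ((H.comap (QuotientGroup.mk' V) : Subgroup G) : Set G) := by
    rw [Subgroup.coe_comap]
    exact hcl.preimage QuotientGroup.continuous_mk
  have h1 : Subgroup.closure (S : Set G) ≤ H.comap (QuotientGroup.mk' V) := by
    rw [Subgroup.closure_le]
    intro s hs
    show QuotientGroup.mk' V s ∈ H
    apply Subgroup.le_topologicalClosure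
    apply Subgroup.subset_closure
    rw [Finset.coe_image]
    exact ⟨s, hs, rfl⟩
  have h2 := Subgroup.topologicalClosure_minimal _ h1 hcomap
  rw [hS] at h2
  rw [eq_top_iff]
  rintro y -
  obtain ⟨x, rfl⟩ := QuotientGroup.mk'_surjective V y
  exact h2 (Subgroup.mem_top x)

theorem stmtQF : StmtQF.{u} := by
  classical
  intro p _ G _ _ _ _ _ _ V _ hV hPP hFG
  have : IsClosed (V : Set G) := hV
  have hT3 : T3Space (G ⧸ V) := inferInstance
  have hT2 : T2Space (G ⧸ V) := inferInstance
  have hsurj := QuotientGroup.mk'_surjective V
  refine ⟨hT2, Pool.Agent.Helper31.ProC.totallyDisconnected_quotient V hV, ?_,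
    fgg_quotient V hFG, ?_⟩
  · intro U hU hUo
    have hcomapN : (U.comap (QuotientGroup.mk' V)).Normal := hU.comap _
    have hcomapO : IsOpen ((U.comap (QuotientGroup.mk' V) : Subgroup G) : Set G) := by
      rw [Subgroup.coe_comap]
      exact hUo.preimage QuotientGroup.continuous_mk
    obtain ⟨n, hn⟩ := hPP _ hcomapN hcomapO
    exact ⟨n, by rw [← hn, Subgroup.index_comap_of_surjective U hsurj]⟩
  · intro n hFES
    obtain ⟨N, h0, hn, hnc, hstep⟩ := hFES
    refine ⟨fun i => (N i).comap (QuotientGroup.mk' V), ?_, ?_, ?_, ?_⟩
    · show (N 0).comap (QuotientGroup.mk' V) = V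
      rw [h0, MonoidHom.comap_bot, QuotientGroup.ker_mk']
    · show (N n).comap (QuotientGroup.mk' V) = ⊤
      rw [hn, Subgroup.comap_top]
    · intro i
      refine ⟨(hnc i).1.comap _, ?_⟩
      show IsClosed (((N i).comap (QuotientGroup.mk' V) : Subgroup G) : Set G)
      rw [Subgroup.coe_comap]
      exact (hnc i).2.preimage QuotientGroup.continuous_mk
    · intro i hi
      obtain ⟨hle, hab, hor⟩ := hstep i hi
      refine ⟨Subgroup.comap_mono hle, ?_, ?_⟩
      · intro a ha b hb
        show QuotientGroup.mk' V (cm a b) ∈ N i
        have e : QuotientGroup.mk' V (cm a b) =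
            cm (QuotientGroup.mk' V a) (QuotientGroup.mk' V b) := by
          simp [cm]
        rw [e]
        exact hab _ ha _ hb
      · rcases hor with hp | ⟨F, hF1, hF2⟩
        · left
          intro a ha
          show QuotientGroup.mk' V (a ^ p) ∈ N i
          rw [map_pow]
          exact hp _ ha
        · right
          refine ⟨F.image (fun y => (hsurj y).choose), ?_, ?_⟩
          · rw [Finset.coe_image]
            rintro _ ⟨y, hy, rfl⟩
            show QuotientGroup.mk' V (hsurj y).choose ∈ N (i + 1)
            rw [(hsurj y).choose_spec]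
            exact hF1 hy
          · intro H hH hKH hFH
            have hVH : V ≤ H := by
              refine le_trans ?_ hKH
              intro v hv
              show QuotientGroup.mk' V v ∈ N i
              have : QuotientGroup.mk' V v = 1 := (QuotientGroup.eq_one_iff v).mpr hv
              rw [this]
              exact (N i).one_mem
            have hmapcl : IsClosed ((H.map (QuotientGroup.mk' V) : Subgroup (G ⧸ V)) :
                Set (G ⧸ V)) := by
              rw [Subgroup.coe_map]
              exact (hH.isCompact.image QuotientGroup.continuous_mk).isClosed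
            have h1 : N i ≤ H.map (QuotientGroup.mk' V) := by
              intro y hy
              obtain ⟨x, rfl⟩ := hsurj y
              exact ⟨x, hKH hy, rfl⟩
            have h2 : (F : Set (G ⧸ V)) ⊆ (H.map (QuotientGroup.mk' V) : Set (G ⧸ V)) := by
              intro y hy
              refine ⟨(hsurj y).choose, ?_, (hsurj y).choose_spec⟩
              apply hFH
              rw [Finset.coe_image]
              exact ⟨y, hy, rfl⟩
            have h3 := hF2 _ hmapcl h1 h2
            intro x hx
            obtain ⟨z, hz, hzx⟩ := h3 hx
            have h4 : z⁻¹ * x ∈ V := by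
              rw [← QuotientGroup.eq]
              exact hzx
            have h5 : x = z * (z⁻¹ * x) := by group
            rw [h5]
            exact H.mul_mem hz (hVH h4)

end Pool.Agent.Helper22.Full
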